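import Pool.Agent.Helper74.NO.Defs

/-!
# The length of a computation
-/

namespace Pool.Agent.Helper1.NO

open Pool.Agent.Helper74.NW Pool.Agent.Helper74.NO Pool.Agent.Helper19.NF

variable {m : ℕ} [NeZero m] {B : Type} [AddCommGroup B]

theorem not_allIn_nil (x0 : Fin m → B) (I : B → Fin m → B) (i : ℕ) : ¬ AllIn x0 I i [] :=
  fun h => absurd (h 0) List.not_mem_nil

/-- A window with a whole row has at least `m` queries. -/
theorem le_of_allIn {x0 : Fin m → B} {i : ℕ} {I : B → Fin m → B} (hI : CF (rot m) x0 i I) {w : List B}
    (h : AllIn x0 I i w) : m ≤ w.length := by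
  classical
  have h1 : (Finset.univ : Finset (Fin m)).card ≤ w.toFinset.card := by
    refine Finset.card_le_card_of_injOn (fun v => val (rot m) x0 I i v) ?_ ?_
    · intro v _
      rw [Finset.mem_coe, List.mem_toFinset]
      exact h v
    · intro u _ v _ huv
      exact (hI i i u v le_rfl le_rfl huv).2
  rw [Finset.card_univ, Fintype.card_fin] at h1
  exact h1.trans (List.toFinset_card_le w)

/-- O4, a little stronger. -/
theorem long2 {x0 : Fin m → B} {R : ℕ} {I : B → Fin m → B} (hI : CF (rot m) x0 R I) (l : List B)
    (hl : AllIn x0 I R l)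
    (hh : ∀ i < R, ∀ p w₁ w₂ q, l = p ++ w₁ ++ w₂ ++ q → AllIn x0 I (i + 1) (w₁ ++ w₂) →
      AllIn x0 I i w₁ ∨ AllIn x0 I i w₂) : 2 ^ R * (m - 1) < l.length := by
  classical
  have hm0 : 1 ≤ m := Nat.one_le_iff_ne_zero.2 (NeZero.ne _)
  have main : ∀ i ≤ R, ∀ p w q, l = p ++ w ++ q → AllIn x0 I i w → 2 ^ i * (m - 1) < w.length := by
    intro i
    induction i with
    | zero =>
      intro _ p w q _ h
      have h1 := le_of_allIn (hI.mono (Nat.zero_le R)) h
      rw [pow_zero, one_mul]
      omega
    | succ i ih =>
      intro hi p w q hw h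
      have hcut : ∀ t : ℕ, AllIn x0 I i (w.take t) ∨ AllIn x0 I i (w.drop t) := by
        intro t
        refine hh i (by omega) p (w.take t) (w.drop t) q ?_ ?_
        · rw [hw, List.append_assoc p (w.take t), List.take_append_drop]
        · rw [List.take_append_drop]
          exact h
      have hlen : AllIn x0 I i (w.take w.length) := by
        rcases hcut w.length with h1 | h1
        · exact h1
        · rw [List.drop_length] at h1
          exact absurd h1 (not_allIn_nil x0 I i)
      have hex : ∃ t, AllIn x0 I i (w.take t) := ⟨_, hlen⟩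
      set t := Nat.find hex with ht
      have ht1 : AllIn x0 I i (w.take t) := Nat.find_spec hex
      have htl : t ≤ w.length := Nat.find_min' hex hlen
      have ht0 : 1 ≤ t := by
        by_contra h1
        have h2 : t = 0 := by omega
        rw [h2, List.take_zero] at ht1
        exact not_allIn_nil x0 I i ht1
      have ht2 : AllIn x0 I i (w.drop (t - 1)) := by
        rcases hcut (t - 1) with h1 | h1
        · exact absurd h1 (Nat.find_min hex (by omega))
        · exact h1
      have l1 := ih (by omega) p (w.take t) (w.drop t ++ q)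
        (by
          rw [hw]
          conv_lhs => rw [← List.take_append_drop t w]
          simp only [List.append_assoc]) ht1
      have l2 := ih (by omega) (p ++ w.take (t - 1)) (w.drop (t - 1)) q
        (by
          rw [hw]
          conv_lhs => rw [← List.take_append_drop (t - 1) w]
          simp only [List.append_assoc]) ht2
      rw [List.length_take, Nat.min_eq_left htl] at l1
      rw [List.length_drop] at l2
      rw [pow_succ, Nat.mul_right_comm]
      omega
  exact main R le_rfl [] l [] (by simp) hl

/-- O4: without bad cuts the computation is long. -/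
theorem long {x0 : Fin m → B} {R : ℕ} {I : B → Fin m → B} (hm : 2 ≤ m) (hI : CF (rot m) x0 R I) (l : List B)
    (hl : AllIn x0 I R l)
    (hh : ∀ i < R, ∀ p w₁ w₂ q, l = p ++ w₁ ++ w₂ ++ q → AllIn x0 I (i + 1) (w₁ ++ w₂) →
      AllIn x0 I i w₁ ∨ AllIn x0 I i w₂) : 2 ^ R < l.length := by
  have h1 := long2 hI l hl hh
  have h4 : 2 ^ R * 1 ≤ 2 ^ R * (m - 1) := Nat.mul_le_mul_left _ (by omega)
  omega

end Pool.Agent.Helper1.NO
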